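import Pool.Agent.L5helper30.AW.Pol

/-!
# Small values of polynomials in several variables at tuples of words (for helper14, MP_a57f33_nt)
-/

set_option autoImplicit false

namespace Pool.Agent.L5helper14.AW

open Finset MvPolynomial

/-- `w` is bad for `Q`: the value at `w` is small compared with one of its terms -/
def SmallAt (r D : ℕ) (Z : List ℕ → ℝ) (δ : ℝ) (Q : MvPolynomial (Fin r) ℝ)
    (w : Fin r → List ℕ) : Prop :=
  ∃ m, |MvPolynomial.eval (fun i => Z (w i)) Q| <
    (δ / 3) ^ (D * r) * (|Q.coeff m| * ∏ i, Z (w i) ^ (m i))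

open Classical in
/-- the tuple with a tail which is good for all coefficients is good outside few first letters -/
theorem fiber_small (r D : ℕ) (W0 : Finset (List ℕ)) (Z : List ℕ → ℝ) (hZ0 : ∀ w ∈ W0, 0 < Z w)
    (μ δ : ℝ) (h0 : 0 < δ) (h1 : δ ≤ 1 / 3)
    (hm : ∀ y : ℝ, 0 < y → ((W0.filter fun w => y ≤ Z w ∧ Z w ≤ (1 + 3 * δ) * y).card : ℝ) ≤ μ * W0.card)
    (hμ : 0 ≤ μ)
    (Q : MvPolynomial (Fin (r + 1)) ℝ) (hD : ∀ i, Q.degreeOf i ≤ D) (v : Fin r → List ℕ)
    (hv : ∀ j ∈ Finset.range (D + 1), ¬ SmallAt r D Z δ ((finSuccEquiv ℝ r Q).coeff j) v) :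
    ((W0.filter fun a => SmallAt (r + 1) D Z δ Q (Fin.cons a v : Fin (r + 1) → List ℕ)).card : ℝ) ≤
      D * μ * W0.card := by
  set P := finSuccEquiv ℝ r Q with hP
  set q : Polynomial ℝ := P.map (eval fun i => Z (v i)) with hq
  have hPd : P.natDegree ≤ D := by rw [hP, natDegree_finSuccEquiv]; exact hD 0
  have hqd : q.natDegree ≤ D := (Polynomial.natDegree_map_le).trans hPd
  have hδ : 0 < δ / 3 := by positivity
  -- the value at `cons a v`
  have hev : ∀ a : List ℕ, eval (fun i => Z ((Fin.cons a v : Fin (r + 1) → List ℕ) i)) Q = q.eval (Z a) := by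
    intro a
    rw [hq, hP, ← eval_eq_eval_mv_eval']
    congr 2
    funext i
    refine Fin.cases ?_ (fun j => ?_) i
    · rw [Fin.cons_zero, Fin.cons_zero]
    · rw [Fin.cons_succ, Fin.cons_succ]
  -- coefficients
  have hco : ∀ m : Fin (r + 1) →₀ ℕ, Q.coeff m = (P.coeff (m 0)).coeff m.tail := by
    intro m
    rw [hP, finSuccEquiv_coeff_coeff, Finsupp.cons_tail]
  have hlow : ∀ m : Fin (r + 1) →₀ ℕ, ∀ a : List ℕ, 0 < Z a →
      (δ / 3) ^ (D * r) * (|Q.coeff m| * ∏ i, Z ((Fin.cons a v : Fin (r + 1) → List ℕ) i) ^ (m i)) ≤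
        |q.coeff (m 0)| * Z a ^ (m 0) := by
    intro m a ha
    have hprod : ∏ i, Z ((Fin.cons a v : Fin (r + 1) → List ℕ) i) ^ (m i) =
        Z a ^ (m 0) * ∏ i, Z (v i) ^ (m.tail i) := by
      rw [Fin.prod_univ_succ, Fin.cons_zero]
      rfl
    rw [hprod]
    by_cases hj : m 0 ∈ Finset.range (D + 1)
    · have h2 := hv (m 0) hj
      unfold SmallAt at h2
      push Not at h2
      have h3 := h2 m.tail
      rw [← hco] at h3
      have h4 : eval (fun i => Z (v i)) (P.coeff (m 0)) = q.coeff (m 0) := by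
        rw [hq, coeff_eval_eq_eval_coeff]
      rw [h4] at h3
      have h5 := mul_le_mul_of_nonneg_right h3 (pow_nonneg ha.le (m 0))
      calc _ = (δ / 3) ^ (D * r) * (|coeff m Q| * ∏ i, Z (v i) ^ m.tail i) * Z a ^ m 0 := by ring
        _ ≤ _ := h5
    · have h2 : Q.coeff m = 0 := by
        rw [hco, Polynomial.coeff_eq_zero_of_natDegree_lt, coeff_zero]
        rw [Finset.mem_range] at hj
        omega
      rw [h2, abs_zero, zero_mul, mul_zero]
      positivity
  have hpow : (δ / 3) ^ (D * (r + 1)) = (δ / 3) ^ D * (δ / 3) ^ (D * r) := by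
    rw [← pow_add]; congr 1; ring
  by_cases hq0 : q = 0
  · have h2 : (W0.filter fun a => SmallAt (r + 1) D Z δ Q (Fin.cons a v : Fin (r + 1) → List ℕ)) = ∅ := by
      rw [filter_eq_empty_iff]
      rintro a ha ⟨m, hm⟩
      have h3 := hlow m a (hZ0 a ha)
      rw [hq0, Polynomial.coeff_zero, abs_zero, zero_mul] at h3
      rw [hev, hq0, Polynomial.eval_zero, abs_zero, hpow, mul_assoc] at hm
      have h4 : (δ / 3) ^ D * ((δ / 3) ^ (D * r) * (|Q.coeff m| * ∏ i, Z ((Fin.cons a v : Fin (r + 1) → List ℕ) i) ^ (m i))) ≤ 0 :=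
        mul_nonpos_of_nonneg_of_nonpos (pow_nonneg hδ.le _) h3
      linarith
    rw [h2, card_empty]
    have : 0 ≤ (D : ℝ) * μ * W0.card := by positivity
    simpa using this
  · obtain ⟨ys, hys1, hys2, hys3⟩ := poly_annuli D q hq0 hqd δ h0 h1
    have hsub : (W0.filter fun a => SmallAt (r + 1) D Z δ Q (Fin.cons a v : Fin (r + 1) → List ℕ)) ⊆
        ys.biUnion fun y => W0.filter fun w => y ≤ Z w ∧ Z w ≤ (1 + 3 * δ) * y := by
      intro a ha
      rw [mem_filter] at ha
      obtain ⟨ha, m, hm⟩ := ha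
      by_contra hne
      have h2 : ∀ y ∈ ys, ¬ (y ≤ Z a ∧ Z a ≤ (1 + 3 * δ) * y) := by
        intro y hy h3
        exact hne (mem_biUnion.2 ⟨y, hy, mem_filter.2 ⟨ha, h3⟩⟩)
      have h3 := hys3 (Z a) (hZ0 a ha) h2 (m 0)
      have h4 := mul_le_mul_of_nonneg_left (hlow m a (hZ0 a ha)) (pow_nonneg hδ.le D)
      rw [hev, hpow, mul_assoc] at hm
      linarith
    have h2 : ((W0.filter fun a => SmallAt (r + 1) D Z δ Q (Fin.cons a v : Fin (r + 1) → List ℕ)).card : ℝ) ≤
        ∑ y ∈ ys, ((W0.filter fun w => y ≤ Z w ∧ Z w ≤ (1 + 3 * δ) * y).card : ℝ) := by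
      have h3 := (card_le_card hsub).trans card_biUnion_le
      exact_mod_cast h3
    refine h2.trans ((Finset.sum_le_sum fun y hy => hm y (hys2 y hy)).trans ?_)
    rw [sum_const, nsmul_eq_mul, ← mul_assoc]
    have h3 : (ys.card : ℝ) ≤ D := by exact_mod_cast hys1
    gcongr

open Classical in
theorem small_values_aux (D : ℕ) (Z : List ℕ → ℝ) (μ δ : ℝ) (hμ : 0 ≤ μ) (h0 : 0 < δ) (h1 : δ ≤ 1 / 3) :
    ∀ (r : ℕ) (W : Fin r → Finset (List ℕ)) (_ : ∀ i, ∀ w ∈ W i, 0 < Z w)
    (_ : ∀ i, ∀ y : ℝ, 0 < y → (((W i).filter fun w => y ≤ Z w ∧ Z w ≤ (1 + 3 * δ) * y).card : ℝ) ≤ μ * (W i).card)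
    (Q : MvPolynomial (Fin r) ℝ) (_ : ∀ i, Q.degreeOf i ≤ D),
    (((Fintype.piFinset W).filter fun w => SmallAt r D Z δ Q w).card : ℝ) ≤
      ((D + 1) ^ r - 1) * μ * ∏ i, ((W i).card : ℝ) := by
  intro r
  induction r with
  | zero =>
    intro W _ _ Q _
    have h2 : (Fintype.piFinset W).filter (fun w => SmallAt 0 D Z δ Q w) = ∅ := by
      rw [filter_eq_empty_iff]
      rintro w _ ⟨m, hm⟩
      have hm0 : m = 0 := Subsingleton.elim _ _
      rw [hm0] at hm
      rw [eq_C_of_isEmpty Q] at hm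
      simp at hm
    rw [h2, card_empty]
    simp
  | succ r ih =>
    intro W hZ hm Q hD
    set P := finSuccEquiv ℝ r Q with hP
    set V : Finset (Fin r → List ℕ) := Fintype.piFinset fun i => W i.succ with hV
    set B := (Fintype.piFinset W).filter fun w => SmallAt (r + 1) D Z δ Q w with hB
    set bad : Finset (Fin r → List ℕ) :=
      (Finset.range (D + 1)).biUnion fun j => V.filter fun v => SmallAt r D Z δ (P.coeff j) v with hbad
    have hmap : ∀ w ∈ B, Fin.tail w ∈ V := by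
      intro w hw
      rw [hB, mem_filter, Fintype.mem_piFinset] at hw
      rw [hV, Fintype.mem_piFinset]
      exact fun j => hw.1 j.succ
    -- the fibers
    have hfib1 : ∀ v : Fin r → List ℕ, ((B.filter fun w => Fin.tail w = v).card : ℝ) ≤
        (((W 0).filter fun a => SmallAt (r + 1) D Z δ Q (Fin.cons a v : Fin (r + 1) → List ℕ)).card : ℝ) := by
      intro v
      have h2 : (B.filter fun w => Fin.tail w = v).card ≤
          ((W 0).filter fun a => SmallAt (r + 1) D Z δ Q (Fin.cons a v : Fin (r + 1) → List ℕ)).card := by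
        refine card_le_card_of_injOn (fun w => w 0) ?_ ?_
        · intro w hw
          rw [mem_coe, mem_filter, hB, mem_filter, Fintype.mem_piFinset] at hw
          obtain ⟨⟨h3, h4⟩, h5⟩ := hw
          rw [mem_coe, mem_filter]
          refine ⟨h3 0, ?_⟩
          rw [← h5]
          have h6 : (Fin.cons (w 0) (Fin.tail w) : Fin (r + 1) → List ℕ) = w := Fin.cons_self_tail w
          simp only [h6]
          exact h4
        · intro w hw w' hw' h
          rw [mem_coe, mem_filter] at hw hw'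
          rw [← Fin.cons_self_tail w, ← Fin.cons_self_tail w', hw.2, hw'.2]
          congr 1
      exact_mod_cast h2
    have hfib : ∀ v ∈ V, ((B.filter fun w => Fin.tail w = v).card : ℝ) ≤
        (D * μ * (W 0).card) + (if v ∈ bad then ((W 0).card : ℝ) else 0) := by
      intro v hv
      refine (hfib1 v).trans ?_
      by_cases hb : v ∈ bad
      · rw [if_pos hb]
        have h3 : (((W 0).filter fun a => SmallAt (r + 1) D Z δ Q (Fin.cons a v : Fin (r + 1) → List ℕ)).card : ℝ) ≤ (W 0).card := by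
          exact_mod_cast card_filter_le _ _
        have h4 : 0 ≤ (D : ℝ) * μ * (W 0).card := by positivity
        linarith
      · rw [if_neg hb, add_zero]
        refine fiber_small r D (W 0) Z (hZ 0) μ δ h0 h1 (hm 0) hμ Q hD v ?_
        intro j hj h3
        exact hb (mem_biUnion.2 ⟨j, hj, mem_filter.2 ⟨hv, h3⟩⟩)
    have hbadc : (bad.card : ℝ) ≤ (D + 1) * (((D + 1) ^ r - 1) * μ * ∏ i : Fin r, ((W i.succ).card : ℝ)) := by
      have h3 : (bad.card : ℝ) ≤ ∑ j ∈ Finset.range (D + 1),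
          ((V.filter fun v => SmallAt r D Z δ (P.coeff j) v).card : ℝ) := by
        exact_mod_cast card_biUnion_le
      refine h3.trans ?_
      refine (Finset.sum_le_sum fun j _ => ih (fun i => W i.succ) (fun i => hZ i.succ) (fun i => hm i.succ)
        (P.coeff j) (fun i => (degreeOf_coeff_finSuccEquiv Q i _).trans (hD i.succ))).trans ?_
      rw [sum_const, card_range, nsmul_eq_mul]
      push_cast
      exact le_refl _
    have hVc : (V.card : ℝ) = ∏ i : Fin r, ((W i.succ).card : ℝ) := by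
      rw [hV, Fintype.card_piFinset]
      push_cast
      rfl
    have hBc : (B.card : ℝ) = ∑ v ∈ V, ((B.filter fun w => Fin.tail w = v).card : ℝ) := by
      rw [card_eq_sum_card_fiberwise hmap]
      push_cast
      rfl
    have hsubV : bad ⊆ V := by
      intro v hv
      rw [hbad, mem_biUnion] at hv
      obtain ⟨j, _, hv⟩ := hv
      exact (mem_filter.1 hv).1
    have hW0 : (0 : ℝ) ≤ (W 0).card := Nat.cast_nonneg _
    calc (B.card : ℝ) = ∑ v ∈ V, ((B.filter fun w => Fin.tail w = v).card : ℝ) := hBc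
      _ ≤ ∑ v ∈ V, ((D * μ * (W 0).card) + (if v ∈ bad then ((W 0).card : ℝ) else 0)) :=
          Finset.sum_le_sum hfib
      _ = V.card * (D * μ * (W 0).card) + bad.card * (W 0).card := by
          rw [sum_add_distrib, sum_const, nsmul_eq_mul, ← sum_filter, sum_const, nsmul_eq_mul,
            filter_mem_eq_inter, inter_eq_right.2 hsubV]
      _ ≤ V.card * (D * μ * (W 0).card) + ((D + 1) * (((D + 1) ^ r - 1) * μ * ∏ i : Fin r, ((W i.succ).card : ℝ))) * (W 0).card := by
          gcongr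
      _ = ((D + 1) ^ (r + 1) - 1) * μ * ∏ i, ((W i).card : ℝ) := by
          rw [hVc, Fin.prod_univ_succ]
          ring

open Classical in
theorem small_values (r D : ℕ) (W : Fin r → Finset (List ℕ)) (Z : List ℕ → ℝ) (hZ : ∀ i, ∀ w ∈ W i, 0 < Z w)
    (μ δ : ℝ) (hμ : 0 ≤ μ) (h0 : 0 < δ) (h1 : δ ≤ 1 / 3)
    (hm : ∀ i, ∀ y : ℝ, 0 < y → (((W i).filter fun w => y ≤ Z w ∧ Z w ≤ (1 + 3 * δ) * y).card : ℝ) ≤ μ * (W i).card)
    (Q : MvPolynomial (Fin r) ℝ) (hD : ∀ i, Q.degreeOf i ≤ D) :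
    (((Fintype.piFinset W).filter fun w => ∃ m, |MvPolynomial.eval (fun i => Z (w i)) Q| <
        (δ / 3) ^ (D * r) * (|Q.coeff m| * ∏ i, Z (w i) ^ (m i))).card : ℝ) ≤
      (D + 1) ^ r * μ * ∏ i, ((W i).card : ℝ) := by
  have h2 := small_values_aux D Z μ δ hμ h0 h1 r W hZ hm Q hD
  have h3 : (((Fintype.piFinset W).filter fun w => ∃ m, |MvPolynomial.eval (fun i => Z (w i)) Q| <
        (δ / 3) ^ (D * r) * (|Q.coeff m| * ∏ i, Z (w i) ^ (m i))).card : ℝ) =
      (((Fintype.piFinset W).filter fun w => SmallAt r D Z δ Q w).card : ℝ) := by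
    congr 1
  rw [h3]
  have h4 : (0 : ℝ) ≤ μ * ∏ i, ((W i).card : ℝ) := mul_nonneg hμ (Finset.prod_nonneg fun i _ => Nat.cast_nonneg _)
  calc _ ≤ _ := h2
    _ ≤ _ := by nlinarith [h4]

end Pool.Agent.L5helper14.AW
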